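import Pool.Agent.X39.Near.PolyL
import Pool.Agent.X255.RH.Fx

/-!
# Equality of periods at ALL algebraic points close to any number outside a set of dimension zero

Let `p_1, …, p_m` be algebraic functions (`m = 0` for periods in the strict sense), `l_k` logarithms of algebraic
functions, `u_i` elliptic integrals of the first kind for any pairwise non-isogenous elliptic curves (`℘ (u_i)` is an
algebraic function), all on a connected open set `V`, and `ξ_1, …, ξ_g` any complex numbers, for instance other periods: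
`π`, values of the zeta function. If the data are defined over the algebraic numbers, then the `l_k (z)`, `u_i (z)`,
`ζ (u_i (z))` are periods for algebraic `z`, and the `exp (p_j (z))` are exponential periods. We consider the equality of
two polynomial expressions with integral coefficients in all these numbers.

Let `μ > 0` be a lower bound for the absolute values of all nonzero values `Q (ξ)` of integral polynomials `Q` of degree at
most `k` and height at most `2 T ^ k` (`μ = 1` if there are no constants). We prove: outside ONE set of complex numbers `x` of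
Hausdorff dimension `0`, for all number fields `F ⊂ ℂ`, all `k` and `ω > 0` there are `B` and `T₁` such that for all `T ≥ T₁`
and ALL `z ∈ F` of height at most `T` with `|z - x| ≤ T ^ (-ω)` the numerical test with precision `μ T ^ (-B)` decides
correctly, for any two expressions of degree at most `k` and height at most `T ^ k`, if their values at `z` are equal. In
particular this holds at the convergents of all irrational real numbers in `V` outside this set, from some point on.
-/

set_option autoImplicit false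

open Polynomial MeasureTheory NumberField

namespace Pool.Agent.Results.MP_bbe012_lc.ApproximationsOfAllNumbers

open Pool.Agent.X39.Near (Size)

/-- The Weierstrass zeta function `ζ(z) = ∑ (1/(z-l) + 1/l + z/l²)`, the sum over the lattice (the summand of `l = 0` is
`1/z`, since `1/0 = 0` in Lean). -/
noncomputable def ζ (L : PeriodPair) (z : ℂ) : ℂ :=
  ∑' l : L.lattice, (1 / (z - l) + 1 / l + z / l ^ 2)

/-- an algebraic function on `V` -/
def Algebraic (V : Set ℂ) (f : ℂ → ℂ) : Prop := ∃ Q : ℂ[X][X], Q ≠ 0 ∧ ∀ z ∈ V, Q.evalEval z (f z) = 0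

/-- Algebraic functions `p_j`, logarithms `l_k` of algebraic functions, elliptic integrals `u_i` of the first kind. -/
structure Data (V : Set ℂ) {m s n q : ℕ} (p : Fin m → ℂ → ℂ) (l : Fin s → ℂ → ℂ) (Λ : Fin q → PeriodPair)
    (ty : Fin n → Fin q) (u : Fin n → ℂ → ℂ) : Prop where
  isOpen : IsOpen V
  isPreconnected : IsPreconnected V
  nonempty : V.Nonempty
  analytic_p : ∀ j, AnalyticOnNhd ℂ (p j) V
  algebraic_p : ∀ j, Algebraic V (p j)
  analytic_l : ∀ k, AnalyticOnNhd ℂ (l k) V
  algebraic_l : ∀ k, Algebraic V fun z => Complex.exp (l k z)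
  /-- no nontrivial combination with integral coefficients of the `p_j` and `l_k` is constant -/
  independent_l : ∀ (a : Fin m → ℤ) (b : Fin s → ℤ) (c : ℂ),
    (∀ z ∈ V, ∑ j, (a j : ℂ) * p j z + ∑ k, (b k : ℂ) * l k z = c) → a = 0 ∧ b = 0
  /-- the elliptic curves are pairwise not isogenous -/
  nonisogenous : ∀ c c', c ≠ c' → ∀ α : ℂ, (∀ w ∈ (Λ c).lattice, α * w ∈ (Λ c').lattice) → α = 0
  analytic_u : ∀ i, AnalyticOnNhd ℂ (u i) V
  u_notMem : ∀ i, ∀ z ∈ V, u i z ∉ (Λ (ty i)).lattice
  algebraic_u : ∀ i, Algebraic V fun z => (Λ (ty i)).weierstrassP (u i z)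
  /-- the `u_i` of type `c` are independent over the complex multiplications of `Λ_c` modulo constants -/
  independent_u : ∀ (c : Fin q) (a : Fin n → ℂ) (b : ℂ), (∀ i, ∀ w ∈ (Λ c).lattice, a i * w ∈ (Λ c).lattice) →
    (∀ i, ty i ≠ c → a i = 0) → (∀ z ∈ V, ∑ i, a i * u i z = b) → a = 0

/-- the functions `exp (p_j (z))`, `l_k (z)`, `u_i (z)`, `ζ (u_i (z))` -/
noncomputable def value {m s n q : ℕ} (p : Fin m → ℂ → ℂ) (l : Fin s → ℂ → ℂ) (Λ : Fin q → PeriodPair)
    (ty : Fin n → Fin q) (u : Fin n → ℂ → ℂ) : Fin m ⊕ (Fin s ⊕ (Fin n ⊕ Fin n)) → ℂ → ℂ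
  | Sum.inl j, z => Complex.exp (p j z)
  | Sum.inr (Sum.inl k), z => l k z
  | Sum.inr (Sum.inr (Sum.inl i)), z => u i z
  | Sum.inr (Sum.inr (Sum.inr i)), z => ζ (Λ (ty i)) (u i z)

theorem indep {m s n q : ℕ} (hpos : 0 < m + s + n) {V : Set ℂ} {p : Fin m → ℂ → ℂ} {l : Fin s → ℂ → ℂ}
    {Λ : Fin q → PeriodPair} {ty : Fin n → Fin q} {u : Fin n → ℂ → ℂ} (hd : Data V p l Λ ty u) :
    (∀ w, AnalyticOnNhd ℂ (value p l Λ ty u w) V) ∧
      Pool.Agent.X255.RH.Indep V (value p l Λ ty u) := by
  have hF : Pool.Agent.Y776.Cv.FxM V Λ ty u (Fin.append p l) :=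
    { isOpen := hd.isOpen
      conn := hd.isPreconnected
      ni := hd.nonisogenous
      ua := hd.analytic_u
      un := hd.u_notMem
      ui := fun c a b h1 h2 h3 => hd.independent_u c a b h1 h2 h3
      la := by
        intro k
        refine Fin.addCases (fun j => ?_) (fun j => ?_) k
        · rw [Fin.append_left]
          exact hd.analytic_p j
        · rw [Fin.append_right]
          exact hd.analytic_l j
      li := by
        intro a c hc
        have h1 := hd.independent_l (fun j => a (Fin.castAdd s j)) (fun k => a (Fin.natAdd m k)) c (by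
          intro z hz
          rw [← hc z hz, Fin.sum_univ_add]
          simp only [Fin.append_left, Fin.append_right])
        funext k
        refine Fin.addCases (fun j => ?_) (fun j => ?_) k
        · exact congrFun h1.1 j
        · exact congrFun h1.2 j }
  have hval : value p l Λ ty u =
      fun i => Pool.Agent.Y776.Cv.yf Λ ty u (Fin.append p l) (Pool.Agent.X255.RH.gB n m s i) := by
    funext i z
    rcases i with j | k | i | i
    · simp [value, Pool.Agent.Y776.Cv.yf, Pool.Agent.X255.RH.gB]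
    · simp [value, Pool.Agent.Y776.Cv.yf, Pool.Agent.X255.RH.gB]
    · rfl
    · rfl
  refine ⟨fun w => ?_, ?_⟩
  · have h1 := Pool.Agent.Y776.Cv.yf_an hF (Pool.Agent.X255.RH.gB n m s w)
    rw [← congrFun hval w] at h1
    exact h1
  · rw [hval]
    exact Pool.Agent.X255.RH.fx_mix hF hpos hd.nonempty hd.algebraic_p hd.algebraic_l hd.algebraic_u

/-- Every nonzero value at the constants `ξ_b` of an integral polynomial of total degree at most `k` and height at most `H`
has absolute value at least `μ`. -/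
def LowerBound {g : ℕ} (ξ : Fin g → ℂ) (k : ℕ) (H μ : ℝ) : Prop :=
  ∀ Q : MvPolynomial (Fin g) ℤ, Q.totalDegree ≤ k → (∀ m, |((Q.coeff m : ℤ) : ℝ)| ≤ H) →
    MvPolynomial.aeval ξ Q ≠ 0 → μ ≤ ‖MvPolynomial.aeval ξ Q‖

/-- without constants one can take `μ = 1` -/
theorem lowerBound_one (ξ : Fin 0 → ℂ) (k : ℕ) (H : ℝ) : LowerBound ξ k H 1 := by
  intro Q _ _ h0
  obtain ⟨c, rfl⟩ := MvPolynomial.C_surjective (Fin 0) Q
  rw [MvPolynomial.aeval_C, eq_intCast] at h0 ⊢
  rw [Complex.norm_intCast]
  exact_mod_cast Int.one_le_abs (show c ≠ 0 by exact_mod_cast h0)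

/-- For any two polynomials `P`, `P'` with integral coefficients, of total degree at most `k` and height at most `T ^ k`, the
values `P (x)` and `P' (x)` are equal if and only if approximations of precision `δ` differ by at most `2 δ`. -/
def Decides {Q : Type} (k : ℕ) (T δ : ℝ) (x : Q → ℂ) : Prop :=
  ∀ P P' : MvPolynomial Q ℤ, P.totalDegree ≤ k → P'.totalDegree ≤ k → (∀ m, |((P.coeff m : ℤ) : ℝ)| ≤ T ^ k) →
    (∀ m, |((P'.coeff m : ℤ) : ℝ)| ≤ T ^ k) → ∀ v v' : ℂ, ‖MvPolynomial.aeval x P - v‖ ≤ δ →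
    ‖MvPolynomial.aeval x P' - v'‖ ≤ δ →
    (MvPolynomial.aeval x P = MvPolynomial.aeval x P' ↔ ‖v - v'‖ ≤ 2 * δ)

theorem decides {J : Type} [Fintype J] [DecidableEq J] {q g : ℕ} (f : J → ℂ → ℂ)
    (u : Fin q → Polynomial ℂ) (w₀ : Polynomial ℂ) (ξ : Fin g → ℂ) (F : Type) [Field F] [NumberField F]
    (io : F →+* ℂ) {k : ℕ} {B T : ℝ} {t : F}
    (h : ¬ Pool.Agent.X39.Near.Dependent f u w₀ ξ F io k ((k + 1 : ℕ) : ℝ) B T t)
    (hT : 4 ≤ T) {μ : ℝ} (hμ0 : 0 < μ) (hμ : LowerBound ξ k (2 * T ^ k) μ) :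
    Decides k T (μ * T ^ (-(B + 1))) (Sum.elim ξ fun j => f j (io t)) := by
  classical
  have hT0 : 0 < T := by linarith
  intro P P' hP hP' hc hc' v v' hv hv'
  set x : Fin g ⊕ J → ℂ := Sum.elim ξ fun j => f j (io t) with hx
  set δ : ℝ := μ * T ^ (-(B + 1)) with hδ
  have hδ0 : 0 < δ := mul_pos hμ0 (Real.rpow_pos_of_pos hT0 _)
  have h4 : 4 * δ ≤ T ^ (-B) * μ := by
    have h5 : T ^ (-(B + 1)) = T ^ (-B) * T⁻¹ := by
      rw [show -(B + 1) = -B + (-1) by ring, Real.rpow_add hT0, Real.rpow_neg_one]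
    have h6 : 4 * T⁻¹ ≤ 1 := by
      rw [← div_eq_mul_inv, div_le_one hT0]
      exact hT
    have h7 : 0 < T ^ (-B) := Real.rpow_pos_of_pos hT0 _
    calc 4 * δ = (T ^ (-B) * μ) * (4 * T⁻¹) := by rw [hδ, h5]; ring
      _ ≤ (T ^ (-B) * μ) * 1 := mul_le_mul_of_nonneg_left h6 (by positivity)
      _ = T ^ (-B) * μ := mul_one _
  constructor
  · intro heq
    calc ‖v - v'‖ = ‖(MvPolynomial.aeval x P' - v') - (MvPolynomial.aeval x P - v)‖ := by
          rw [heq]
          ring_nf
      _ ≤ ‖MvPolynomial.aeval x P' - v'‖ + ‖MvPolynomial.aeval x P - v‖ := norm_sub_le _ _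
      _ ≤ 2 * δ := by linarith
  · intro hle
    by_contra hne
    have h8 := Pool.Agent.X39.Near.int_lower f u w₀ ξ F io h hT0 (P - P')
      ((MvPolynomial.totalDegree_sub _ _).trans (max_le hP hP')) (H := 2 * T ^ k) (μ := μ) ?_ (fun m => ?_) hμ ?_
    · rw [map_sub] at h8
      have h9 : ‖MvPolynomial.aeval x P - MvPolynomial.aeval x P'‖ ≤ 4 * δ := by
        calc ‖MvPolynomial.aeval x P - MvPolynomial.aeval x P'‖ =
            ‖(MvPolynomial.aeval x P - v) - (MvPolynomial.aeval x P' - v') + (v - v')‖ := by ring_nf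
          _ ≤ ‖(MvPolynomial.aeval x P - v) - (MvPolynomial.aeval x P' - v')‖ + ‖v - v'‖ := norm_add_le _ _
          _ ≤ (‖MvPolynomial.aeval x P - v‖ + ‖MvPolynomial.aeval x P' - v'‖) + ‖v - v'‖ := by
            gcongr
            exact norm_sub_le _ _
          _ ≤ 4 * δ := by linarith
      exact absurd (h8.trans_le h9) (not_lt.2 h4)
    · rw [Real.rpow_natCast, pow_succ, mul_comm]
      exact mul_le_mul_of_nonneg_left (by linarith) (by positivity)
    · rw [MvPolynomial.coeff_sub, Int.cast_sub]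
      calc |((P.coeff m : ℤ) : ℝ) - ((P'.coeff m : ℤ) : ℝ)| ≤ |((P.coeff m : ℤ) : ℝ)| + |((P'.coeff m : ℤ) : ℝ)| :=
            abs_sub _ _
        _ ≤ 2 * T ^ k := by linarith [hc m, hc' m]
    · rw [map_sub]
      exact sub_ne_zero.2 hne

/-- **Theorem.** Let `p_j`, `l_k`, `u_i` be as in `Data`, at least one function in all, and `ξ_1, …, ξ_g` complex numbers.
There is a set `E` of complex numbers of Hausdorff dimension `0` such that: (1) for all `x ∈ V` outside `E`, all number
fields `F` with an embedding `ι` in `ℂ`, all `k` and `ω > 0` there are `B`, `T₁` such that for all `T ≥ T₁`, all `μ > 0` which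
are a lower bound for the nonzero values of integral polynomials of degree at most `k` and height at most `2 T ^ k` at the
constants, and all `z ∈ F`, quotients of integers with conjugates at most `T`, with `|ι z - x| ≤ T ^ (-ω)`, the numerical test
with precision `μ T ^ (-B)` decides the equality of all expressions of degree at most `k` and height at most `T ^ k` in the
constants and the values of the functions at `z`; (2) for all irrational real `x ∈ V` outside `E` and all `k` there is
`B` such that the same holds at the convergents of `x` from some point on, `T` being the denominator. -/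
theorem result {m s n q g : ℕ} (hpos : 0 < m + s + n) (V : Set ℂ)
    (p : Fin m → ℂ → ℂ) (l : Fin s → ℂ → ℂ) (Λ : Fin q → PeriodPair) (ty : Fin n → Fin q) (u : Fin n → ℂ → ℂ)
    (hd : Data V p l Λ ty u) (ξ : Fin g → ℂ) :
    ∃ E : Set ℂ, dimH E = 0 ∧
      (∀ x ∈ V, x ∉ E → ∀ (F : Type) [Field F] [NumberField F] (ι : F →+* ℂ) (k : ℕ) (ω : ℝ), 0 < ω →
        ∃ B T₁ : ℝ, ∀ T : ℝ, T₁ ≤ T → ∀ μ : ℝ, 0 < μ → LowerBound ξ k (2 * T ^ k) μ → ∀ z : F, Size F T z →
          ‖ι z - x‖ ≤ T ^ (-ω) →
          Decides k T (μ * T ^ (-B)) (Sum.elim ξ fun j => value p l Λ ty u j (ι z))) ∧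
      ∀ x : ℝ, Irrational x → (x : ℂ) ∈ V → (x : ℂ) ∉ E → ∀ k : ℕ, ∃ (B : ℝ) (n₀ : ℕ), ∀ i : ℕ, n₀ ≤ i →
        ∀ μ : ℝ, 0 < μ → LowerBound ξ k (2 * ((x.convergent i).den : ℝ) ^ k) μ →
          Decides k (x.convergent i).den (μ * ((x.convergent i).den : ℝ) ^ (-B))
            (Sum.elim ξ fun j => value p l Λ ty u j ((x.convergent i : ℚ) : ℂ)) := by
  classical
  obtain ⟨han, hind⟩ := indep hpos hd
  obtain ⟨E, h1, h2, h3⟩ := Pool.Agent.X39.Near.master_indep (q := 0) V hd.isOpen hd.isPreconnected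
    (value p l Λ ty u) han hind (fun k => k.elim0) 1 (by simp) ξ
  refine ⟨E, h1, ?_, ?_⟩
  · intro x hx hxE F _ _ ι k ω hω
    obtain ⟨B, T₁, h4⟩ := h2 x hx hxE F ι k (k + 1) ω hω
    exact ⟨B + 1, max T₁ 4, fun T hT μ hμ0 hμ z hz hzx => decides _ _ _ ξ F ι
      (h4 T ((le_max_left _ _).trans hT) z hz hzx) ((le_max_right _ _).trans hT) hμ0 hμ⟩
  · intro x hx hxV hxE k
    obtain ⟨B, n₀, h4⟩ := h3 x hx hxV hxE k (k + 1)
    obtain ⟨n₁, h5⟩ := Pool.Agent.X39.Near.den_conv hx 4
    exact ⟨B + 1, max n₀ n₁, fun i hi μ hμ0 hμ => decides _ _ _ ξ ℚ (algebraMap ℚ ℂ)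
      (h4 i ((le_max_left _ _).trans hi)) (h5 i ((le_max_right _ _).trans hi)).le hμ0 hμ⟩

end Pool.Agent.Results.MP_bbe012_lc.ApproximationsOfAllNumbers
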