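import Pool.Agent.X255.RH.Iter4
import Pool.Agent.X255.RH.Loc
import Pool.Agent.X255.RH.Mea3

/-!
# Equality of polynomials in iterated integrals at almost all algebraic numbers, jointly for all conjugates

The problem asks for an algorithm which decides the equality of periods. We treat iterated integrals of algebraic
differentials: let `L_i` and `X_{j,0}` be primitives of algebraic functions (logarithms of algebraic functions, elliptic
and abelian integrals of all three kinds), no nontrivial linear combination of which is algebraic, and let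
`X_{j,k+1}' = L_i' X_{j,k}` for `k < m`, where `i = fam j` depends on `j`. For `L_i = log f_i (z)`,
`X_{j,0} = -log (1 - f_i (z) / c_j)`, `f_i` algebraic functions, these are the polylogarithms
`X_{j,k} = Li_{k+1} (f_i (z) / c_j)`; for `t = 1`, `f (z) = z` we prove (last part of `result`) that the hypotheses are
satisfied. If these data are defined over the algebraic numbers, their values are periods for
algebraic `z`. For 100% of the integral polynomials of degree `g`, ordered by the maximum `T` of the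
absolute values of the coefficients, we prove for the numbers `L_i (z)`, `X_{j,k} (z)`, `z` ALL roots of the
polynomial in `V` (at distance at least `1 / (k + 1)` from the complement):
- equality is formal: two polynomial expressions in these numbers of degree at most `ω (T)`, with algebraic
  coefficients of degree at most `ω (T)` and size at most `T ^ ω (T)`, `ω (T) → ∞`, are equal only if the
  coefficients are equal (the coefficients may also contain fixed complex numbers, and the theorem says that then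
  the difference of the coefficients vanishes);
- equality of expressions with integral coefficients, of degree at most `k` and height at most `T ^ k`, is decided by
  approximations of precision `T ^ (-B)`.

Proof: `Pool.Agent.X255.RH.Iter` (algebraic independence of the functions with one `L`: with
`y_{j,k} = ∑ (-L)^i / i! X_{j,k-i}` one has `y_{j,k}' = (-L)^k / k! X_{j,0}'`, Ostrowski's theorem over the field
generated by `L` reduces the claim to linear relations, and these are treated by comparison of the coefficients of the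
powers of `L`; for several `L_i` this is applied over the fields generated by the functions of the other families), `Pool.Agent.X255.NP` and `Pool.Agent.Y890.MV` (nonstandard versions of the Bombieri-Pila method), and
`Pool.Agent.X255.RH` (independence of functions of different variables; almost no integral polynomial has close roots).
-/

set_option autoImplicit false

open Polynomial Filter NumberField
open scoped Classical

namespace Pool.Agent.Results.MP_bbe012_lc.IteratedIntegrals

/-- an algebraic function on `V` -/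
def Algebraic (V : Set ℂ) (f : ℂ → ℂ) : Prop := ∃ Q : ℂ[X][X], Q ≠ 0 ∧ ∀ z ∈ V, Q.evalEval z (f z) = 0

/-- Primitives `L_i`, `X_{j,0}` of algebraic functions and iterated integrals `X_{j,k+1} = ∫ L_i' X_{j,k}`, `i = fam j`. -/
structure Data (V : Set ℂ) {t r : ℕ} (m : ℕ) (fam : Fin r → Fin t) (L : Fin t → ℂ → ℂ) (X : Fin r → ℕ → ℂ → ℂ) : Prop where
  isOpen : IsOpen V
  isPreconnected : IsPreconnected V
  nonempty : V.Nonempty
  analytic_L : ∀ i, AnalyticOnNhd ℂ (L i) V
  analytic_X : ∀ j, ∀ k ≤ m, AnalyticOnNhd ℂ (X j k) V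
  algebraic_L : ∀ i, Algebraic V (deriv (L i))
  algebraic_X : ∀ j, Algebraic V (deriv (X j 0))
  step : ∀ j, ∀ k < m, ∀ z ∈ V, deriv (X j (k + 1)) z = deriv (L (fam j)) z * X j k z
  /-- no nontrivial linear combination of the `L_i` and the `X_{j,0}` is algebraic -/
  independent : ∀ (b : Fin t → ℂ) (c : Fin r → ℂ),
    Algebraic V (fun z => ∑ i, b i * L i z + ∑ j, c j * X j 0 z) → b = 0 ∧ c = 0

/-- `L` is a branch of `log z`, `X_{j,0}` is a branch of `-log (1 - z / c_j)`, and `X_{j,k+1}' = X_{j,k} / z`: the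
polylogarithms `X_{j,k} = Li_{k+1} (z / c_j)`. -/
structure Polylogarithms (V : Set ℂ) {r : ℕ} (m : ℕ) (c : Fin r → ℂ) (L : ℂ → ℂ) (X : Fin r → ℕ → ℂ → ℂ) : Prop where
  isOpen : IsOpen V
  isPreconnected : IsPreconnected V
  nonempty : V.Nonempty
  injective : Function.Injective c
  ne_zero : ∀ j, c j ≠ 0
  analytic_L : AnalyticOnNhd ℂ L V
  analytic_X : ∀ j, ∀ k ≤ m, AnalyticOnNhd ℂ (X j k) V
  exp_L : ∀ z ∈ V, Complex.exp (L z) = z
  exp_X : ∀ j, ∀ z ∈ V, Complex.exp (-X j 0 z) = 1 - z / c j
  step : ∀ j, ∀ k < m, ∀ z ∈ V, deriv (X j (k + 1)) z = X j k z / z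

/-- the numbers `X_{j,k} (z)`, `k ≤ m`, and `L_i (z)` -/
noncomputable def value {t r : ℕ} (m : ℕ) (L : Fin t → ℂ → ℂ) (X : Fin r → ℕ → ℂ → ℂ) (z : ℂ) :
    (Fin r × Fin (m + 1)) ⊕ Fin t → ℂ
  | Sum.inl jk => X jk.1 jk.2 z
  | Sum.inr i => L i z

/-- the polynomial `a_g X ^ g + … + a_0` -/
noncomputable def poly {g : ℕ} (a : Fin (g + 1) → ℤ) : ℂ[X] := ∑ i, C (a i : ℂ) * X ^ (i : ℕ)

/-- the roots of the polynomial in the set `V` -/
noncomputable def rootsIn (V : Set ℂ) {g : ℕ} (a : Fin (g + 1) → ℤ) : Finset ℂ :=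
  (poly a).roots.toFinset.filter fun z => z ∈ V

/-- The numbers `x q`, `q ∈ Q`, satisfy no relation of degree at most `k` in each of them with coefficients
`∑ ξ b * c b`, `b < k`, where the `c b` are integers of a number field of degree at most `k`, all of whose conjugates
are of absolute value at most `T ^ k`, except the relations all of whose coefficients vanish. -/
def Unrelated {Q : Type} [Fintype Q] [DecidableEq Q] (ξ : ℕ → ℂ) (k : ℕ) (T : ℝ) (x : Q → ℂ) : Prop :=
  ∀ (F : Type) [Field F] [NumberField F], Module.finrank ℚ F ≤ k → ∀ (io : F →+* ℂ)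
    (c : (Q → Fin (k + 1)) → Fin k → 𝓞 F), (∀ l b (φ : F →+* ℂ), ‖φ (c l b : F)‖ ≤ T ^ k) →
    ∑ l, (∑ b : Fin k, ξ b * io (c l b : F)) * ∏ q, x q ^ (l q : ℕ) = 0 → ∀ l, ∑ b : Fin k, ξ b * io (c l b : F) = 0

/-- For two polynomials `P`, `P'` with integral coefficients, of total degree at most `k` and height at most `T ^ k`, the
values `P (x)` and `P' (x)` are equal if and only if approximations of precision `T ^ (-B)` differ by at most
`2 T ^ (-B)`. -/
def Decides {Q : Type} (k : ℕ) (B T : ℝ) (x : Q → ℂ) : Prop :=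
  ∀ P P' : MvPolynomial Q ℤ, P.totalDegree ≤ k → P'.totalDegree ≤ k → (∀ m, |((P.coeff m : ℤ) : ℝ)| ≤ T ^ k) →
    (∀ m, |((P'.coeff m : ℤ) : ℝ)| ≤ T ^ k) → ∀ v v' : ℂ, ‖MvPolynomial.aeval x P - v‖ ≤ T ^ (-B) →
    ‖MvPolynomial.aeval x P' - v'‖ ≤ T ^ (-B) →
    (MvPolynomial.aeval x P = MvPolynomial.aeval x P' ↔ ‖v - v'‖ ≤ 2 * T ^ (-B))

/-- the `a` with `|a_i| ≤ T` -/
noncomputable def box (g T : ℕ) : Finset (Fin (g + 1) → ℤ) := Fintype.piFinset fun _ => Finset.Icc (-(T : ℤ)) T

/-- the points whose distance to the complement of `V` is at least `1 / (k + 1)` -/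
def region (V : Set ℂ) (k : ℕ) : Set ℂ := {z | Metric.ball z (1 / ((k : ℝ) + 1)) ⊆ V}

/-- the numbers `X_{j,k} (z)`, `L_i (z)`, `z` all roots of `a` in the set `K` -/
noncomputable def numbers {g t r : ℕ} (K : Set ℂ) (m : ℕ) (L : Fin t → ℂ → ℂ) (X : Fin r → ℕ → ℂ → ℂ)
    (a : Fin (g + 1) → ℤ) (x : {z // z ∈ rootsIn K a} × ((Fin r × Fin (m + 1)) ⊕ Fin t)) : ℂ :=
  value m L X x.1 x.2

/-- `a` is of degree `g`, with simple roots, and the numbers at the roots in `region V k` are unrelated -/
def Good {g t r : ℕ} (V : Set ℂ) (m : ℕ) (L : Fin t → ℂ → ℂ) (X : Fin r → ℕ → ℂ → ℂ) (ξ : ℕ → ℂ) (k : ℕ) (T : ℝ)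
    (a : Fin (g + 1) → ℤ) : Prop :=
  a (Fin.last g) ≠ 0 ∧ (poly a).Separable ∧ Unrelated ξ k T (numbers (region V k) m L X a)

/-- `a` is of degree `g`, with simple roots, and approximations decide for the numbers at the roots in `region V k` -/
def GoodD {g t r : ℕ} (V : Set ℂ) (m : ℕ) (L : Fin t → ℂ → ℂ) (X : Fin r → ℕ → ℂ → ℂ) (k : ℕ) (B T : ℝ)
    (a : Fin (g + 1) → ℤ) : Prop :=
  a (Fin.last g) ≠ 0 ∧ (poly a).Separable ∧ Decides k B T (numbers (region V k) m L X a)

/-- `a` is of degree `g`, its roots are simple, of absolute value at most `R`, at distance at least `η` from each other,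
and the roots in `V` are at distance at least `η` from the complement of `V` -/
def Position (V : Set ℂ) (R η : ℝ) {g : ℕ} (a : Fin (g + 1) → ℤ) : Prop :=
  a (Fin.last g) ≠ 0 ∧ (poly a).Separable ∧ ∀ z, (poly a).eval z = 0 → ‖z‖ ≤ R ∧
    (∀ w, (poly a).eval w = 0 → w ≠ z → η ≤ ‖z - w‖) ∧ (z ∈ V → Metric.ball z η ⊆ V)

theorem algOn_iff (V : Set ℂ) (f : ℂ → ℂ) : Pool.Agent.X255.RH.AlgOn V f ↔ Algebraic V f := by
  unfold Pool.Agent.X255.RH.AlgOn Algebraic
  simp only [Polynomial.eval₂_evalRingHom]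

theorem indep {t r m : ℕ} {V : Set ℂ} {fam : Fin r → Fin t} {L : Fin t → ℂ → ℂ} {X : Fin r → ℕ → ℂ → ℂ}
    (hd : Data V m fam L X) :
    (∀ w, AnalyticOnNhd ℂ (fun z => value m L X z w) V) ∧
      Pool.Agent.X255.RH.Indep V (fun w z => value m L X z w) := by
  have ha : ∀ f, Pool.Agent.X255.RH.AlgOn V f ↔ Algebraic V f := algOn_iff V
  have hval : (fun w z => value m L X z w) =
      Sum.elim (fun jk : Fin r × Fin (m + 1) => X jk.1 jk.2) L := by
    funext i z
    rcases i with jk | _ <;> rfl
  refine ⟨fun w => ?_, ?_⟩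
  · rcases w with jk | i
    · exact hd.analytic_X jk.1 jk.2 (Nat.lt_succ_iff.1 jk.2.isLt)
    · exact hd.analytic_L i
  · rw [hval]
    exact Pool.Agent.X255.RH.multi_indep hd.isPreconnected hd.isOpen hd.nonempty hd.analytic_L hd.analytic_X
      (fun i => (ha _).2 (hd.algebraic_L i)) (fun j => (ha _).2 (hd.algebraic_X j)) hd.step
      (fun b c h => hd.independent b c ((ha _).1 h))

theorem data_of_polylogarithms {r m : ℕ} {V : Set ℂ} {c : Fin r → ℂ} {L : ℂ → ℂ} {X : Fin r → ℕ → ℂ → ℂ}
    (h : Polylogarithms V m c L X) : Data V m (fun _ : Fin r => (0 : Fin 1)) (fun _ => L) X := by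
  obtain ⟨hL1, hX1, hlin⟩ := Pool.Agent.X255.RH.log_lin h.isPreconnected h.isOpen h.nonempty c h.injective h.ne_zero
    h.analytic_L (fun j => h.analytic_X j 0 (Nat.zero_le m)) h.exp_L h.exp_X
  refine ⟨h.isOpen, h.isPreconnected, h.nonempty, fun _ => h.analytic_L, h.analytic_X, fun _ => ?_, fun j => ?_,
    fun j k hk z hz => ?_, fun b a hab => ?_⟩
  · refine ⟨C Polynomial.X * Polynomial.X - 1, ?_, fun z hz => ?_⟩
    · intro h0
      have h1 := congrArg (fun Q : ℂ[X][X] => (Q.coeff 0).coeff 0) h0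
      simp at h1
    · have h1 := hL1 z hz
      simp only [evalEval, eval_sub, eval_mul, eval_C, eval_X, eval_one]
      linear_combination h1
  · refine ⟨C (C (c j) - Polynomial.X) * Polynomial.X - 1, ?_, fun z hz => ?_⟩
    · intro h0
      have h1 := congrArg (fun Q : ℂ[X][X] => (Q.coeff 0).coeff 0) h0
      simp at h1
    · have h1 := hX1 j z hz
      simp only [evalEval, eval_sub, eval_mul, eval_C, eval_X, eval_one]
      linear_combination h1
  · have h1 := hL1 z hz
    have hz0 : z ≠ 0 := by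
      rintro rfl
      rw [mul_zero] at h1
      exact zero_ne_one h1
    rw [h.step j k hk z hz, div_eq_iff hz0]
    linear_combination -(X j k z) * h1
  · have h1 := hlin (b 0) a (by
      rw [algOn_iff]
      have h2 : (fun z => ∑ i : Fin 1, b i * L z + ∑ j, a j * X j 0 z) = fun z => b 0 * L z + ∑ j, a j * X j 0 z := by
        funext z
        rw [Fin.sum_univ_one]
      rwa [h2] at hab)
    refine ⟨funext fun i => ?_, h1.2⟩
    rw [Subsingleton.elim i 0]
    exact h1.1

theorem decides_of_mea {Q : Type} [Fintype Q] [DecidableEq Q] {k : ℕ} {B T : ℝ} (hT : 5 ≤ T) {x : Q → ℂ}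
    (h : Pool.Agent.X255.RH.Mea (fun b => if b = 0 then 1 else 0) (k + 1) B T x) : Decides k (B + 1) T x := by
  intro P P' hP hP' hc hc' v v' hv hv'
  have hT0 : (0 : ℝ) < T := by linarith
  have hpos : 0 < T ^ (-(B + 1)) := Real.rpow_pos_of_pos hT0 _
  by_cases hPP : P = P'
  · subst hPP
    refine ⟨fun _ => ?_, fun _ => rfl⟩
    calc ‖v - v'‖ = ‖(MvPolynomial.aeval x P - v') - (MvPolynomial.aeval x P - v)‖ := by congr 1; ring
      _ ≤ _ := norm_sub_le _ _
      _ ≤ 2 * T ^ (-(B + 1)) := by linarith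
  · have h1 : T ^ (-B) ≤ ‖MvPolynomial.aeval x (P - P')‖ := by
      refine h.int (by omega) (P - P') (sub_ne_zero.2 hPP) (fun i => ?_) (fun m => ?_)
      · refine (MvPolynomial.degreeOf_le_totalDegree _ i).trans ((MvPolynomial.totalDegree_sub _ _).trans ?_)
        exact (max_le hP hP').trans (Nat.le_succ k)
      · rw [MvPolynomial.coeff_sub, Int.cast_sub]
        have h2 : (0 : ℝ) ≤ T ^ k := by positivity
        calc _ ≤ |((P.coeff m : ℤ) : ℝ)| + |((P'.coeff m : ℤ) : ℝ)| := abs_sub _ _
          _ ≤ T ^ k + T ^ k := add_le_add (hc m) (hc' m)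
          _ ≤ T ^ k * T := by nlinarith
          _ = T ^ (k + 1) := (pow_succ _ _).symm
    rw [map_sub] at h1
    have h2 : T ^ (-B) = T * T ^ (-(B + 1)) := by
      rw [show -B = 1 + -(B + 1) by ring, Real.rpow_add hT0, Real.rpow_one]
    have h3 : 4 * T ^ (-(B + 1)) < T ^ (-B) := by
      rw [h2]
      exact mul_lt_mul_of_pos_right (by linarith) hpos
    have h4 : 0 < ‖MvPolynomial.aeval x P - MvPolynomial.aeval x P'‖ := lt_of_lt_of_le (by positivity) h1
    constructor
    · intro he
      rw [he, sub_self, norm_zero] at h4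
      exact absurd h4 (lt_irrefl _)
    · intro hvv
      exfalso
      have h5 : ‖MvPolynomial.aeval x P - MvPolynomial.aeval x P'‖ ≤ 4 * T ^ (-(B + 1)) := by
        calc ‖MvPolynomial.aeval x P - MvPolynomial.aeval x P'‖ =
            ‖(MvPolynomial.aeval x P - v) + (v - v') - (MvPolynomial.aeval x P' - v')‖ := by congr 1; ring
          _ ≤ ‖(MvPolynomial.aeval x P - v) + (v - v')‖ + ‖MvPolynomial.aeval x P' - v'‖ := norm_sub_le _ _
          _ ≤ ‖MvPolynomial.aeval x P - v‖ + ‖v - v'‖ + ‖MvPolynomial.aeval x P' - v'‖ := by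
              gcongr
              exact norm_add_le _ _
          _ ≤ 4 * T ^ (-(B + 1)) := by linarith
      linarith

/-- **Theorem.** Let `g ≥ 1` and let `L_i`, `X_{j,k}` be as in `Data`.
(1) For every sequence `ξ` there is a monotone `ω`, `ω(T) → ∞`, such that the proportion of the polynomials with
`|a_i| ≤ T` which are not `Good` with `k = ω(T)` is at most `1 / ω(T)`.
(2) For every `k ≥ 1` there are `B` and `T₀` such that for `T ≥ T₀` the proportion of the polynomials with `|a_i| ≤ T`
which are not `GoodD` is at most `1 / k`.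
(3) For fixed `k ≥ 1`, `R`, `η > 0` and `ε > 0` there are `B`, `C` such that approximations decide, `Decides k B T`, for the
numbers at the roots in `V` for all but `C T ^ (g + ε)` of the polynomials with `|a_i| ≤ T` whose roots are in the compact
position `Position V R η` (there are about `(2 T) ^ (g + 1)` polynomials).
The polylogarithms are such functions. -/
theorem result :
    (∀ (g t r m : ℕ), 0 < g → ∀ (V : Set ℂ) (fam : Fin r → Fin t) (L : Fin t → ℂ → ℂ) (X : Fin r → ℕ → ℂ → ℂ),
      Data V m fam L X →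
      (∀ ξ : ℕ → ℂ, ∃ ω : ℕ → ℕ, Tendsto ω atTop atTop ∧ Monotone ω ∧ ∀ T,
        ω T * ((box g T).filter fun a => ¬ Good V m L X ξ (ω T) T a).card ≤ (box g T).card) ∧
      (∀ k : ℕ, 1 ≤ k → ∃ (B : ℝ) (T₀ : ℕ), ∀ T : ℕ, T₀ ≤ T →
        (k : ℝ) * ((box g T).filter fun a => ¬ GoodD V m L X k B T a).card ≤ (box g T).card) ∧
      (∀ (k : ℕ) (R η ε : ℝ), 1 ≤ k → 0 < η → 0 < ε → ∃ B C : ℝ, ∀ T : ℕ, 5 ≤ T →
        (((box g T).filter fun a => Position V R η a ∧ ¬ Decides k B T (numbers V m L X a)).card : ℝ) ≤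
          C * (T : ℝ) ^ ((g : ℝ) + ε))) ∧
    (∀ (r m : ℕ) (V : Set ℂ) (c : Fin r → ℂ) (L : ℂ → ℂ) (X : Fin r → ℕ → ℂ → ℂ), Polylogarithms V m c L X →
      Data V m (fun _ : Fin r => (0 : Fin 1)) (fun _ => L) X) := by
  refine ⟨fun g t r m hg V fam L X hd => ?_, fun r m V c L X h => data_of_polylogarithms h⟩
  have hop : IsOpen V := hd.isOpen
  have hpre : IsPreconnected V := hd.isPreconnected
  obtain ⟨han, hind⟩ := indep hd
  refine ⟨fun ξ => ?_, fun k hk => ?_, fun k R η ε hk hη hε => ?_⟩
  · exact Pool.Agent.X255.RH.main_all (g := g) hg hpre hop (region V) (Pool.Agent.X255.RH.tame_deep V) han hind ξ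
  · obtain ⟨B, T₀, h⟩ := Pool.Agent.X255.RH.mea_all (g := g) hg hpre hop (Pool.Agent.X255.RH.tame_deep V k) han hind
      (k + 1) (by omega)
    refine ⟨B + 1, max 5 T₀, fun T hT => ?_⟩
    have hT5 : (5 : ℝ) ≤ T := by exact_mod_cast (le_max_left _ _).trans hT
    have h3 := h T ((le_max_right _ _).trans hT) (fun b => if b = 0 then 1 else 0)
    refine le_trans ?_ h3
    push_cast
    refine mul_le_mul (by linarith) ?_ (Nat.cast_nonneg _) (by positivity)
    refine Nat.cast_le.2 (Finset.card_le_card fun a ha => ?_)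
    rw [Finset.mem_filter] at ha ⊢
    exact ⟨ha.1, fun hgood => ha.2 ⟨hgood.1, hgood.2.1, decides_of_mea hT5 hgood.2.2⟩⟩
  · obtain ⟨B, C, h⟩ := Pool.Agent.X255.RH.mea_eps (g := g) hg hpre hop han hind V (k + 1) R η ε hη hε
    refine ⟨B + 1, C, fun T hT => ?_⟩
    have hT5 : (5 : ℝ) ≤ T := by exact_mod_cast hT
    refine le_trans ?_ (h T (by omega) (fun b => if b = 0 then 1 else 0))
    refine Nat.cast_le.2 (Finset.card_le_card fun a ha => ?_)
    rw [Finset.mem_filter] at ha ⊢
    exact ⟨ha.1, ha.2.1, fun hm => ha.2.2 (decides_of_mea hT5 hm)⟩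

end Pool.Agent.Results.MP_bbe012_lc.IteratedIntegrals
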