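import Pool.Agent.Results.MP_bbe012_lc.EqualityOverConstants
import Pool.Agent.X174.WinRat

/-!
# Equality of periods in families: the test decides at ALL parameters in cubes around thin sequences of points

Expressions are the polynomials with integer coefficients in `π`, in arbitrary further constants `ξ_1, …, ξ_g` and in the
periods `K`, `E` of Legendre curves, logarithms and polylogarithms at rational parameters `q_1, …, q_n` in `[a, b]`. Let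
`ε > 0`. For every sequence `v ≥ 1` of exponent of convergence at most `τ` (for `v_i = (i + 1) ^ a` this is `1 / a`, for
`v_i = b ^ i` it is `0`) and every `ρ < 1`, outside a set of `x ∈ ℝ^(2n)` of Hausdorff dimension at most
`(2 (n - 1) + ε + τ) / (1 - ρ)` the following holds for all but finitely many `i`: for ALL parameters `q` whose numerators
and denominators are in the cube with centre `x v_i` and side `2 v_i ^ ρ` and ALL pairs of expressions of degree at most `d`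
with coefficients at most `v_i ^ A`, the test of `EqualityOverConstants`, at any approximations of the two values with
precision `μ_i v_i ^ (-B)`, answers and decides correctly whether the two values are equal. Here `μ_i` is any lower bound for
the nonzero values of polynomials with coefficients at most `v_i ^ (A + 2)` at the constants; without further constants
(`g = 0`) the precision `v_i ^ (-B)` is enough.

The number of exceptions is from the starting result `EqualityOverConstants`.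
-/

set_option autoImplicit false

open Filter

namespace Pool.Agent.Results.MP_bbe012_lc.ParametersInCubes

open EqualityOverConstants (Name value test NoAnswer LowerBound constants)

/-- the exponent of convergence of the sequence `v` is at most `τ` -/
def ExpLe (v : ℕ → ℝ) (τ : ℝ) : Prop := ∀ t : ℝ, τ < t → Summable (fun n : ℕ => (v n) ^ (-t))

/-- the test with precision `δ` answers and is correct, for all pairs of expressions of degree at most `d` in each variable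
with coefficients at most `H`, at all approximations of their values -/
def Decides {N : ℕ} (g n w d : ℕ) (α γ : Fin N → ℝ) (ξ : Fin g → ℂ) (H δ : ℝ) (q : Fin n → ℚ) : Prop :=
  ∀ P₁ P₂ : MvPolynomial (Name g N n w) ℤ, (∀ z, P₁.degreeOf z ≤ d ∧ P₂.degreeOf z ≤ d) →
    (∀ s, |((P₁.coeff s : ℤ) : ℝ)| ≤ H ∧ |((P₂.coeff s : ℤ) : ℝ)| ≤ H) →
    ∀ v₁ v₂ : ℂ, ‖v₁ - value α γ ξ q P₁‖ ≤ δ → ‖v₂ - value α γ ξ q P₂‖ ≤ δ →
      (test d ξ P₁ P₂ v₁ v₂ δ = some true ∧ value α γ ξ q P₁ = value α γ ξ q P₂) ∨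
      (test d ξ P₁ P₂ v₁ v₂ δ = some false ∧ value α γ ξ q P₁ ≠ value α γ ξ q P₂)

lemma lower_mono {g : ℕ} {ξ : Fin g → ℂ} {D : ℕ} {H H' μ : ℝ} (hH : H' ≤ H) (h : LowerBound ξ D H μ) :
    LowerBound ξ D H' μ := fun Q hd hc hne => h Q hd (fun s => (hc s).trans hH) hne

lemma test_mono {N g n w d : ℕ} {ξ : Fin g → ℂ} {P₁ P₂ : MvPolynomial (Name g N n w) ℤ} {v₁ v₂ : ℂ} {δ δ' : ℝ}
    (h : δ' ≤ δ) (ht : test d ξ P₁ P₂ v₁ v₂ δ' = none) : test d ξ P₁ P₂ v₁ v₂ δ = none := by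
  unfold EqualityOverConstants.test at ht ⊢
  split_ifs at ht with h1 h2
  rw [if_neg h1, if_neg]
  intro h3
  exact h2 (by linarith)

/-- the passage to cubes -/
lemma core {N : ℕ} (g n w d : ℕ) (α γ : Fin N → ℝ) (a b A s C B0 : ℝ) (hA : 0 ≤ A) (hs : 0 ≤ s)
    (ξ : Fin g → ℂ)
    (hcor : ∀ q : Fin n → ℚ, (∀ l, a ≤ q l ∧ q l ≤ b) → ∀ P₁ P₂ : MvPolynomial (Name g N n w) ℤ,
      ∀ (v₁ v₂ : ℂ) (δ : ℝ), ‖v₁ - value α γ ξ q P₁‖ ≤ δ → ‖v₂ - value α γ ξ q P₂‖ ≤ δ →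
      (test d ξ P₁ P₂ v₁ v₂ δ = some true → value α γ ξ q P₁ = value α γ ξ q P₂) ∧
      (test d ξ P₁ P₂ v₁ v₂ δ = some false → value α γ ξ q P₁ ≠ value α γ ξ q P₂))
    {v : ℕ → ℝ} {τ ρ : ℝ} (hv : ∀ i, 1 ≤ v i) (hτ : 0 ≤ τ) (hE : ExpLe v τ) (hρ : ρ < 1)
    (μ : ℕ → ℝ) (hμ : ∀ i, 0 < μ i)
    (hcount : ∀ R : ℕ, 1 ≤ R → ∃ i₁ : ℕ, ∀ i : ℕ, i₁ ≤ i →
      (NoAnswer N n w d α γ ξ a b A (R * v i) (μ i * (R * v i) ^ (-B0))).Finite ∧
      ((NoAnswer N n w d α γ ξ a b A (R * v i) (μ i * (R * v i) ^ (-B0))).ncard : ℝ) ≤ C * (R * v i) ^ s) :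
    ∃ E : Set (Fin n × Fin 2 → ℝ), dimH E ≤ ENNReal.ofReal ((s + τ) / (1 - ρ)) ∧
      ∀ x : Fin n × Fin 2 → ℝ, x ∉ E → ∃ i₀ : ℕ, ∀ i : ℕ, i₀ ≤ i →
        ∀ q : Fin n → ℚ, (∀ l, a ≤ q l ∧ q l ≤ b) →
          (∀ l, |((q l).num : ℝ) - x (l, 0) * v i| ≤ (v i) ^ ρ ∧ |((q l).den : ℝ) - x (l, 1) * v i| ≤ (v i) ^ ρ) →
          Decides g n w d α γ ξ ((v i) ^ A) (μ i * (v i) ^ (-(max B0 0 + 1))) q := by
  have hvp : ∀ i, 0 < v i := fun i => lt_of_lt_of_le one_pos (hv i)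
  have hvt : Tendsto v atTop atTop := Pool.Agent.Y854.GM.tendsto_of_expLe hvp hτ hE
  have key : ∀ R : ℕ, ∃ E : Set (Fin n × Fin 2 → ℝ), dimH E ≤ ENNReal.ofReal ((s + τ) / (1 - ρ)) ∧
      (1 ≤ R → ∀ x : Fin n × Fin 2 → ℝ, x ∉ E → ∃ i₀ : ℕ, ∀ i : ℕ, i₀ ≤ i →
        ∀ q ∈ NoAnswer N n w d α γ ξ a b A (R * v i) (μ i * (R * v i) ^ (-B0)),
          ¬ ∀ j, |Pool.Agent.X174.numDen q j - x j * v i| ≤ (v i) ^ ρ) := by
    intro R
    by_cases hR : 1 ≤ R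
    swap
    · exact ⟨∅, by simp, fun h => absurd h hR⟩
    have hR1 : (1 : ℝ) ≤ R := by exact_mod_cast hR
    obtain ⟨i₁, hi₁⟩ := hcount R hR
    obtain ⟨E, hE1, hE2⟩ := Pool.Agent.X174.windowsVecV (κ := Fin n × Fin 2)
      (fun i => NoAnswer N n w d α γ ξ a b A (R * v i) (μ i * (R * v i) ^ (-B0)))
      (fun _ q j => Pool.Agent.X174.numDen q j) hv hτ hE (s := s) hs hρ (by
        intro ε hε
        refine ⟨|C| * (R : ℝ) ^ s, i₁, fun i hi => ?_⟩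
        obtain ⟨h1, h2⟩ := hi₁ i hi
        refine ⟨h1, h2.trans ?_⟩
        have hvi := hvp i
        calc C * ((R : ℝ) * v i) ^ s ≤ |C| * ((R : ℝ) * v i) ^ s :=
              mul_le_mul_of_nonneg_right (le_abs_self C) (by positivity)
          _ = |C| * (R : ℝ) ^ s * (v i) ^ s := by
              rw [Real.mul_rpow (by positivity) hvi.le]
              ring
          _ ≤ _ := mul_le_mul_of_nonneg_left (Real.rpow_le_rpow_of_exponent_le (hv i) (by linarith)) (by positivity))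
    exact ⟨E, hE1, fun _ x hx => hE2 x hx⟩
  choose Es hEs1 hEs2 using key
  refine ⟨⋃ R, Es R, ?_, fun x hx => ?_⟩
  · rw [dimH_iUnion]
    exact iSup_le hEs1
  obtain ⟨R, hR, hRc⟩ := Pool.Agent.X174.le_of_cube x
  have hR1 : (1 : ℝ) ≤ R := by exact_mod_cast hR
  obtain ⟨i₁, hi₁⟩ := hEs2 R hR x (fun hm => hx (Set.mem_iUnion.2 ⟨_, hm⟩))
  obtain ⟨i₂, hi₂⟩ := Pool.Agent.X174.small_of_small hvt hv R hR B0
  refine ⟨max i₁ i₂, fun i hi q hq hcube => ?_⟩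
  have hcube' : ∀ j, |Pool.Agent.X174.numDen q j - x j * v i| ≤ (v i) ^ ρ := by
    rintro ⟨j, e⟩
    obtain ⟨h1, h2⟩ := hcube j
    fin_cases e
    · rw [← Pool.Agent.X174.numDen_zero] at h1
      exact h1
    · rw [← Pool.Agent.X174.numDen_one] at h2
      exact h2
  have hδ : μ i * (v i) ^ (-(max B0 0 + 1)) ≤ μ i * ((R : ℝ) * v i) ^ (-B0) :=
    mul_le_mul_of_nonneg_left (hi₂ i ((le_max_right _ _).trans hi)) (hμ i).le
  have hle : v i ≤ (R : ℝ) * v i := by nlinarith [hvp i]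
  have hA' : (v i) ^ A ≤ ((R : ℝ) * v i) ^ A := Real.rpow_le_rpow (hvp i).le hle hA
  intro P₁ P₂ hdeg hcoef v₁ v₂ h1 h2
  obtain ⟨c1, c2⟩ := hcor q hq P₁ P₂ v₁ v₂ _ h1 h2
  have hne : test d ξ P₁ P₂ v₁ v₂ (μ i * (v i) ^ (-(max B0 0 + 1))) ≠ none := by
    intro hnone
    refine hi₁ i ((le_max_left _ _).trans hi) q ⟨fun l => ⟨(hq l).1, (hq l).2, ?_⟩, P₁, P₂, hdeg,
      fun s => ⟨(hcoef s).1.trans hA', (hcoef s).2.trans hA'⟩, v₁, v₂, h1.trans hδ, h2.trans hδ, test_mono hδ hnone⟩ hcube'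
    have h3 := hRc _ (v i) ρ (hv i) hρ hcube' (l, 1)
    rw [Pool.Agent.X174.numDen_one, abs_of_nonneg (Nat.cast_nonneg _)] at h3
    exact h3
  rcases ht : test d ξ P₁ P₂ v₁ v₂ (μ i * (v i) ^ (-(max B0 0 + 1))) with _ | t
  · exact absurd ht hne
  · cases t
    · exact Or.inr ⟨rfl, c2 ht⟩
    · exact Or.inl ⟨rfl, c1 ht⟩

/-- **Theorem.** Let `n ≥ 1`, `α_1 > ⋯ > α_N > 0`, `γ_1 < ⋯ < γ_N < 1`, `0 < a < b < 1` with `α_1 < a`, `b < γ_1`, `A ≥ 0`
and `ε > 0`.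
(1) Let `g ≥ 0`. There are `D` and `B` such that for every sequence `v ≥ 1` of exponent of convergence at most `τ ≥ 0`, every
`ρ < 1`, all complex `ξ_1, …, ξ_g` and all `μ_i` in `(0, 1]` which are lower bounds for the nonzero values at
`(π, ξ_1, …, ξ_g)` of integer polynomials of degree at most `D` in each variable with coefficients at most `v_i ^ (A + 2)`
(there are such `μ_i`), there is a set `E ⊂ ℝ^(2n)` of Hausdorff dimension at most `(2 (n - 1) + ε + τ) / (1 - ρ)` such that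
for each `x` outside `E`, for all but finitely many `i`, the test with precision `μ_i v_i ^ (-B)` answers and is correct at
ALL parameters `q_l ∈ [a, b]` with `|num q_l - x_(l,0) v_i| ≤ v_i ^ ρ`, `|den q_l - x_(l,1) v_i| ≤ v_i ^ ρ`, for ALL pairs of
expressions of degree at most `d` in each variable with coefficients at most `v_i ^ A`.
(2) Without further constants (`g = 0`) this holds with precision `v_i ^ (-B)`.
The sequences `v_i = (i + 1) ^ a` and `v_i = b ^ i` have exponent of convergence at most `1 / a` and `0`. -/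
theorem result :
    (∀ (N n w d : ℕ), 1 ≤ n → ∀ α γ : Fin N → ℝ, StrictAnti α → StrictMono γ → (∀ j, 0 < α j) → (∀ j, γ j < 1) →
      ∀ a b : ℝ, 0 < a → a < b → b < 1 → (∀ j, α j < a ∧ b < γ j) → ∀ A ε : ℝ, 0 ≤ A → 0 < ε →
      (∀ g : ℕ, ∃ (D : ℕ) (B : ℝ), ∀ (v : ℕ → ℝ) (τ ρ : ℝ), (∀ i, 1 ≤ v i) → 0 ≤ τ → ExpLe v τ → ρ < 1 →
        ∀ ξ : Fin g → ℂ, (∃ μ : ℕ → ℝ, ∀ i, 0 < μ i ∧ μ i ≤ 1 ∧ LowerBound ξ D ((v i) ^ (A + 2)) (μ i)) ∧
          ∀ μ : ℕ → ℝ, (∀ i, 0 < μ i ∧ μ i ≤ 1 ∧ LowerBound ξ D ((v i) ^ (A + 2)) (μ i)) →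
          ∃ E : Set (Fin n × Fin 2 → ℝ), dimH E ≤ ENNReal.ofReal ((2 * ((n : ℝ) - 1) + ε + τ) / (1 - ρ)) ∧
            ∀ x : Fin n × Fin 2 → ℝ, x ∉ E → ∃ i₀ : ℕ, ∀ i : ℕ, i₀ ≤ i →
              ∀ q : Fin n → ℚ, (∀ l, a ≤ q l ∧ q l ≤ b) →
                (∀ l, |((q l).num : ℝ) - x (l, 0) * v i| ≤ (v i) ^ ρ ∧
                  |((q l).den : ℝ) - x (l, 1) * v i| ≤ (v i) ^ ρ) →
                Decides g n w d α γ ξ ((v i) ^ A) (μ i * (v i) ^ (-B)) q) ∧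
      (∃ B : ℝ, ∀ (v : ℕ → ℝ) (τ ρ : ℝ), (∀ i, 1 ≤ v i) → 0 ≤ τ → ExpLe v τ → ρ < 1 →
        ∀ ξ : Fin 0 → ℂ,
          ∃ E : Set (Fin n × Fin 2 → ℝ), dimH E ≤ ENNReal.ofReal ((2 * ((n : ℝ) - 1) + ε + τ) / (1 - ρ)) ∧
            ∀ x : Fin n × Fin 2 → ℝ, x ∉ E → ∃ i₀ : ℕ, ∀ i : ℕ, i₀ ≤ i →
              ∀ q : Fin n → ℚ, (∀ l, a ≤ q l ∧ q l ≤ b) →
                (∀ l, |((q l).num : ℝ) - x (l, 0) * v i| ≤ (v i) ^ ρ ∧
                  |((q l).den : ℝ) - x (l, 1) * v i| ≤ (v i) ^ ρ) →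
                Decides 0 n w d α γ ξ ((v i) ^ A) ((v i) ^ (-B)) q)) ∧
    (∀ a : ℝ, 0 < a → ExpLe (fun n : ℕ => ((n : ℝ) + 1) ^ a) (1 / a)) ∧
    (∀ b : ℝ, 1 < b → ExpLe (fun n : ℕ => b ^ n) 0) := by
  refine ⟨fun N n w d hn α γ hα hγ hα0 hγ1 a b ha hab hb h A ε hA hε => ?_,
    fun κ hκ => Pool.Agent.Y854.GM.expLe_pow κ hκ, fun b hb => Pool.Agent.Y854.GM.expLe_geom b hb⟩
  have hn1 : (1 : ℝ) ≤ n := by exact_mod_cast hn
  have hs : 0 ≤ 2 * ((n : ℝ) - 1) + ε := by linarith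
  constructor
  · intro g
    obtain ⟨hcor, ⟨D, B0, C, hC⟩, -⟩ := EqualityOverConstants.result g n w d hn α γ hα hγ hα0 hγ1 a b ha hab hb h A ε hε
    refine ⟨D, max B0 0 + 1, fun v τ ρ hv hτ hE hρ ξ => ⟨?_, fun μ hμ => ?_⟩⟩
    · have hex : ∀ i, ∃ μ : ℝ, 0 < μ ∧ μ ≤ 1 ∧ LowerBound ξ D ((v i) ^ (A + 2)) μ := by
        intro i
        have hT : 1 ≤ (v i) ^ (A + 2) := Real.one_le_rpow (hv i) (by linarith)
        obtain ⟨⟨μ, h1, h2, h3⟩, -⟩ := hC _ hT ξ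
        refine ⟨μ, h1, h2, lower_mono ?_ h3⟩
        calc (v i) ^ (A + 2) = ((v i) ^ (A + 2)) ^ (1 : ℝ) := (Real.rpow_one _).symm
          _ ≤ _ := Real.rpow_le_rpow_of_exponent_le hT (by linarith)
      choose μ hμ using hex
      exact ⟨μ, hμ⟩
    · have hvp : ∀ i, 0 < v i := fun i => lt_of_lt_of_le one_pos (hv i)
      have hvt : Tendsto v atTop atTop := Pool.Agent.Y854.GM.tendsto_of_expLe hvp hτ hE
      refine core g n w d α γ a b A _ C B0 hA hs ξ (hcor ξ) hv hτ hE hρ μ (fun i => (hμ i).1) ?_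
      intro R hR
      have hR1 : (1 : ℝ) ≤ R := by exact_mod_cast hR
      obtain ⟨i₁, hi₁⟩ := (hvt.eventually_ge_atTop ((R : ℝ) ^ (A + 1))).exists_forall_of_atTop
      refine ⟨i₁, fun i hi => ?_⟩
      have hvi := hvp i
      have hT : 1 ≤ (R : ℝ) * v i := by nlinarith [hv i]
      obtain ⟨-, h2⟩ := hC _ hT ξ
      apply h2 (μ i) (hμ i).1 (hμ i).2.1
      apply lower_mono _ (hμ i).2.2
      calc ((R : ℝ) * v i) ^ (A + 1) = (R : ℝ) ^ (A + 1) * (v i) ^ (A + 1) :=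
            Real.mul_rpow (by positivity) hvi.le
        _ ≤ v i * (v i) ^ (A + 1) := mul_le_mul_of_nonneg_right (hi₁ i hi) (Real.rpow_nonneg hvi.le _)
        _ = (v i) ^ (A + 2) := by
            rw [mul_comm, show A + 2 = (A + 1) + 1 by ring, Real.rpow_add hvi (A + 1) 1, Real.rpow_one]
  · obtain ⟨hcor, -, ⟨B0, C, hC⟩⟩ := EqualityOverConstants.result 0 n w d hn α γ hα hγ hα0 hγ1 a b ha hab hb h A ε hε
    refine ⟨max B0 0 + 1, fun v τ ρ hv hτ hE hρ ξ => ?_⟩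
    have hcore := core 0 n w d α γ a b A _ C B0 hA hs ξ (hcor ξ) hv hτ hE hρ (fun _ => 1) (fun _ => one_pos) (by
      intro R hR
      have hR1 : (1 : ℝ) ≤ R := by exact_mod_cast hR
      refine ⟨0, fun i _ => ?_⟩
      have hT : 1 ≤ (R : ℝ) * v i := by nlinarith [hv i]
      rw [one_mul]
      exact hC _ hT ξ)
    simpa only [one_mul] using hcore

end Pool.Agent.Results.MP_bbe012_lc.ParametersInCubes
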