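import Pool.Agent.X231.DP.Primes

/-!
# Equality of sums of products of fixed numbers and logarithms is decidable

Let `v_1, …, v_N` be arbitrary complex numbers, for example periods: monomials of bounded degree in
`π`, `ζ(3)`, `log 2`, `Γ(1/3)^3`, …. We consider the numbers

`∑ q_j v_(i_j) log n_j + ∑ r_j v_(i_j)`

with rational `q_j`, `r_j` and positive integers `n_j`; if the `v_i` are periods, these are periods,
and infinitely many logarithms occur. There is an algorithm (with primitive recursive running time)
which decides whether two such expressions have the same value. The case `N = 1`, `v_1 = 1` is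
classical (unique factorization and the transcendence of the logarithms). Already for `N = 2`,
`v = (1, π)`, the numbers `∑ q_j log n_j + π ∑ r_j log m_j`, it is open whether there are nontrivial
relations at all.

The same holds if the logarithms of the primes are replaced by any sequence of logarithms of
algebraic numbers that is linearly independent over `ℚ`.

Proof. By the hyperplane case of the linear subgroup theorem (Waldschmidt, Roy), in the form
`Pool.Agent.W254.HP.gen_logs` of the library, a relation `∑_s (∑_i c_(i,s) v_i) log p_s = 0` is
trivial if it does not contain the primes of a certain finite set. Hence the relations form, modulo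
the trivial ones, a finite dimensional space and have a common finite support `F`
(`Pool.Agent.X231.DP.exists_support`). Membership in this space is a finite system of linear equations
for the exponents of the primes of `F`, together with one and the same finite system of equations at
each of the other primes. The finitely many coefficients of these equations are not known, but they
are a finite amount of data, so the algorithm exists (`Pool.Agent.X231.DP.Comp`, `Main`, `Fin`).
-/

set_option autoImplicit false

namespace Pool.Agent.Results.MP_bbe012_lc.ProductsWithLogarithms

/-- An expression is a list of terms `(i, a, b, d, n)`. -/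
abbrev Expression (N : ℕ) : Type := List (Fin N × ℕ × ℕ × ℕ × ℕ)

/-- The value of an expression: the sum of the numbers `(a - b) / (d + 1) * v_i * μ_n` over its terms
`(i, a, b, d, n)`. -/
noncomputable def value {N : ℕ} (v : Fin N → ℂ) (μ : ℕ → ℂ) (x : Expression N) : ℂ :=
  (x.map fun t => ((t.2.1 : ℂ) - t.2.2.1) / ((t.2.2.2.1 : ℂ) + 1) * v t.1 * μ t.2.2.2.2).sum

/-- `μ_0 = 1` and `μ_n = log n` for `n ≥ 1` -/
noncomputable def logs (n : ℕ) : ℂ := if n = 0 then 1 else ((Real.log n : ℝ) : ℂ)

/-- `μ_n = w(n, 0) + ∑_{1 ≤ s ≤ n} w(n, s) l_s`, where `l_1, l_2, …` are the numbers `l 0, l 1, …` -/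
noncomputable def combinations (w : ℕ → ℕ → ℕ) (l : ℕ → ℂ) (n : ℕ) : ℂ :=
  (w n 0 : ℂ) + ∑ s ∈ Finset.range n, (w n (s + 1) : ℂ) * l s

/-- For all complex numbers `v_1, …, v_N`:
(1) the set of the pairs of expressions which have the same value
`∑ (a - b) / (d + 1) * v_i * log n` (with `1` in place of `log 0`) is primitive recursive;
(2) the same holds with `μ_n = w(n, 0) + ∑_{1 ≤ s ≤ n} w(n, s) l_s` in place of `log n`, for every
sequence `l_1, l_2, …` of logarithms of algebraic numbers which is linearly independent over `ℚ` and
every primitive recursive `w` with `w(n, s) = 0` for `n < s`. -/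
theorem result (N : ℕ) (v : Fin N → ℂ) :
    (PrimrecPred fun p : Expression N × Expression N => value v logs p.1 = value v logs p.2) ∧
    ∀ l : ℕ → ℂ, (∀ s, IsAlgebraic ℚ (Complex.exp (l s))) → LinearIndependent ℚ l →
      ∀ w : ℕ → ℕ → ℕ, Primrec₂ w → (∀ n s, n < s → w n s = 0) →
      PrimrecPred fun p : Expression N × Expression N =>
        value v (combinations w l) p.1 = value v (combinations w l) p.2 :=
  ⟨Pool.Agent.X231.DP.ints v, fun l hl hli w hw hb => Pool.Agent.X231.DP.seq v l hl hli w hw hb⟩

end Pool.Agent.Results.MP_bbe012_lc.ProductsWithLogarithms
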